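import Mathlib
import Pool.Agent.Helper63.KB.Defs

/-!
# Metric geometry of a deck-invariant metric on the plane and of the Klein bottle
-/

open Real MeasureTheory Set
open scoped ContDiff ENNReal NNReal

namespace KB

/-- The linear part of the deck transformation. -/
noncomputable def dvec (m : ℤ) (v : ℝ × ℝ) : ℝ × ℝ := (v.1, (-1 : ℝ) ^ m * v.2)

lemma abs_neg_one_zpow (m : ℤ) : |((-1 : ℝ) ^ m)| = 1 := by
  rcases Int.even_or_odd m with h | h
  · rw [h.neg_one_zpow]; norm_num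
  · rw [h.neg_one_zpow]; norm_num

lemma norm_dvec (m : ℤ) (v : ℝ × ℝ) : ‖dvec m v‖ = ‖v‖ := by
  simp [dvec, Prod.norm_def]

lemma deck_sub (m n : ℤ) (p q : ℝ × ℝ) : deck m n p - deck m n q = dvec m (p - q) := by
  ext
  · simp [deck, dvec]
  · simp only [deck, dvec, Prod.snd_sub]; ring

/-- every point is the image of a point of the unit square -/
lemma exists_deck_mem (p : ℝ × ℝ) : ∃ m n : ℤ, ∃ q ∈ Icc (0 : ℝ) 1 ×ˢ Icc (0 : ℝ) 1, p = deck m n q := by
  set m : ℤ := ⌊2 * p.1⌋ with hm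
  set y : ℝ := (-1 : ℝ) ^ m * p.2 with hy
  rcases Int.even_or_odd m with h | h
  · refine ⟨m, ⌊p.2⌋, (p.1 - m / 2, p.2 - ⌊p.2⌋), ?_, ?_⟩
    · have h1 := Int.floor_le (2 * p.1)
      have h2 := Int.lt_floor_add_one (2 * p.1)
      have h3 := Int.floor_le p.2
      have h4 := Int.lt_floor_add_one p.2
      rw [← hm] at h1 h2
      refine ⟨⟨?_, ?_⟩, ⟨?_, ?_⟩⟩ <;> simp only <;> linarith
    · ext
      · simp [deck]
      · simp [deck, h.neg_one_zpow]
  · refine ⟨m, ⌊p.2⌋ + 1, (p.1 - m / 2, ⌊p.2⌋ + 1 - p.2), ?_, ?_⟩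
    · have h1 := Int.floor_le (2 * p.1)
      have h2 := Int.lt_floor_add_one (2 * p.1)
      have h3 := Int.floor_le p.2
      have h4 := Int.lt_floor_add_one p.2
      rw [← hm] at h1 h2
      refine ⟨⟨?_, ?_⟩, ⟨?_, ?_⟩⟩ <;> simp only <;> linarith
    · ext
      · simp [deck]
      · simp [deck, h.neg_one_zpow]

namespace RMetric

variable (g : RMetric)

lemma norm_nonneg (p v : ℝ × ℝ) : 0 ≤ g.norm p v := Real.sqrt_nonneg _

lemma quad_nonneg (p v : ℝ × ℝ) :
    0 ≤ g.E p * v.1 ^ 2 + 2 * g.F p * v.1 * v.2 + g.G p * v.2 ^ 2 := by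
  have h1 := g.pos_E p
  have h2 := g.pos_det p
  have h3 : g.E p * (g.E p * v.1 ^ 2 + 2 * g.F p * v.1 * v.2 + g.G p * v.2 ^ 2)
      = (g.E p * v.1 + g.F p * v.2) ^ 2 + (g.E p * g.G p - g.F p ^ 2) * v.2 ^ 2 := by ring
  have h4 : 0 ≤ g.E p * (g.E p * v.1 ^ 2 + 2 * g.F p * v.1 * v.2 + g.G p * v.2 ^ 2) := by
    rw [h3]; positivity
  exact nonneg_of_mul_nonneg_right h4 h1

lemma quad_pos (p v : ℝ × ℝ) (hv : v ≠ 0) :
    0 < g.E p * v.1 ^ 2 + 2 * g.F p * v.1 * v.2 + g.G p * v.2 ^ 2 := by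
  have h1 := g.pos_E p
  have h2 := g.pos_det p
  have h3 : g.E p * (g.E p * v.1 ^ 2 + 2 * g.F p * v.1 * v.2 + g.G p * v.2 ^ 2)
      = (g.E p * v.1 + g.F p * v.2) ^ 2 + (g.E p * g.G p - g.F p ^ 2) * v.2 ^ 2 := by ring
  have h4 : 0 < g.E p * (g.E p * v.1 ^ 2 + 2 * g.F p * v.1 * v.2 + g.G p * v.2 ^ 2) := by
    rw [h3]
    by_cases h : v.2 = 0
    · have h5 : v.1 ≠ 0 := fun h5 => hv (Prod.ext h5 h)
      rw [h]
      have : 0 < (g.E p * v.1 + g.F p * 0) ^ 2 := by
        rw [mul_zero, add_zero]; positivity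
      nlinarith
    · have : 0 < (g.E p * g.G p - g.F p ^ 2) * v.2 ^ 2 := by positivity
      nlinarith [sq_nonneg (g.E p * v.1 + g.F p * v.2)]
  exact (mul_pos_iff_of_pos_left h1).1 h4

lemma norm_sq (p v : ℝ × ℝ) :
    g.norm p v ^ 2 = g.E p * v.1 ^ 2 + 2 * g.F p * v.1 * v.2 + g.G p * v.2 ^ 2 :=
  Real.sq_sqrt (g.quad_nonneg p v)

lemma norm_pos (p v : ℝ × ℝ) (hv : v ≠ 0) : 0 < g.norm p v := Real.sqrt_pos.2 (g.quad_pos p v hv)

lemma norm_zero (p : ℝ × ℝ) : g.norm p 0 = 0 := by simp [norm]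

lemma norm_smul (p v : ℝ × ℝ) (a : ℝ) : g.norm p (a • v) = |a| * g.norm p v := by
  unfold norm
  rw [← Real.sqrt_sq_eq_abs, ← Real.sqrt_mul (sq_nonneg a)]
  congr 1
  simp only [Prod.smul_fst, Prod.smul_snd, smul_eq_mul]
  ring

lemma norm_neg (p v : ℝ × ℝ) : g.norm p (-v) = g.norm p v := by
  have := g.norm_smul p v (-1)
  simpa using this

lemma continuous_norm : Continuous (fun z : (ℝ × ℝ) × (ℝ × ℝ) => g.norm z.1 z.2) := by
  have h1 := g.smooth_E.continuous
  have h2 := g.smooth_F.continuous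
  have h3 := g.smooth_G.continuous
  unfold norm
  fun_prop

lemma norm_deck (m n : ℤ) (p v : ℝ × ℝ) : g.norm (deck m n p) (dvec m v) = g.norm p v := by
  unfold norm dvec
  rw [g.inv_E, g.inv_F, g.inv_G]
  congr 1
  have h := neg_one_zpow_mul_self m
  simp only
  linear_combination (2 * g.F p * v.1 * v.2 + g.G p * v.2 ^ 2) * h

lemma exists_bounds : ∃ c C : ℝ, 0 < c ∧ 0 < C ∧
    ∀ p v, c * ‖v‖ ≤ g.norm p v ∧ g.norm p v ≤ C * ‖v‖ := by
  have hK : IsCompact ((Icc (0 : ℝ) 1 ×ˢ Icc (0 : ℝ) 1) ×ˢ Metric.sphere (0 : ℝ × ℝ) 1) :=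
    (isCompact_Icc.prod isCompact_Icc).prod (isCompact_sphere _ _)
  have hne : ((Icc (0 : ℝ) 1 ×ˢ Icc (0 : ℝ) 1) ×ˢ Metric.sphere (0 : ℝ × ℝ) 1).Nonempty := by
    refine ⟨((0, 0), (1, 0)), ⟨⟨by simp, by simp⟩, by simp [Prod.norm_def]⟩⟩
  obtain ⟨z, hz, hmin⟩ := hK.exists_isMinOn hne g.continuous_norm.continuousOn
  obtain ⟨w, hw, hmax⟩ := hK.exists_isMaxOn hne g.continuous_norm.continuousOn
  have hz0 : z.2 ≠ 0 := by
    intro h
    have := hz.2
    rw [h] at this
    simp at this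
  have hw0 : w.2 ≠ 0 := by
    intro h
    have := hw.2
    rw [h] at this
    simp at this
  refine ⟨g.norm z.1 z.2, g.norm w.1 w.2, g.norm_pos _ _ hz0, g.norm_pos _ _ hw0, ?_⟩
  intro p v
  by_cases hv : v = 0
  · subst hv; simp [norm_zero]
  obtain ⟨m, n, q, hq, rfl⟩ := exists_deck_mem p
  have hv' : 0 < ‖v‖ := norm_pos_iff.2 hv
  set u : ℝ × ℝ := (‖v‖)⁻¹ • dvec m v with hu
  have hu1 : ‖u‖ = 1 := by
    rw [hu, _root_.norm_smul, norm_dvec, norm_inv, norm_norm, inv_mul_cancel₀ hv'.ne']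
  have e : g.norm (deck m n q) v = ‖v‖ * g.norm q u := by
    have h1 : dvec m (dvec m v) = v := by
      ext
      · simp [dvec]
      · simp only [dvec]; rw [← mul_assoc, neg_one_zpow_mul_self, one_mul]
    have h2 := g.norm_deck m n q (dvec m v)
    rw [h1] at h2
    rw [h2, hu, g.norm_smul, abs_of_pos (inv_pos.2 hv'), ← mul_assoc, mul_inv_cancel₀ hv'.ne',
      one_mul]
  have hmem : (q, u) ∈ (Icc (0 : ℝ) 1 ×ˢ Icc (0 : ℝ) 1) ×ˢ Metric.sphere (0 : ℝ × ℝ) 1 :=
    ⟨hq, by simp [hu1]⟩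
  have h3 := hmin hmem
  have h4 := hmax hmem
  simp only [mem_ofPred_eq] at h3 h4
  rw [e]
  constructor
  · nlinarith
  · nlinarith

/-! ### Curves -/

/-- the speed of a curve -/
noncomputable def speed (γ : ℝ → ℝ × ℝ) (t : ℝ) : ℝ := g.norm (γ t) (deriv γ t)

lemma speed_nonneg (γ : ℝ → ℝ × ℝ) (t : ℝ) : 0 ≤ g.speed γ t := g.norm_nonneg _ _

lemma measurable_speed {γ : ℝ → ℝ × ℝ} (hγ : Continuous γ) : Measurable (g.speed γ) := by
  have h1 : Measurable (deriv γ) := measurable_deriv γ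
  exact g.continuous_norm.measurable.comp (hγ.measurable.prodMk h1)

lemma exists_speed_le {γ : ℝ → ℝ × ℝ} {K : ℝ≥0} (hγ : LipschitzWith K γ) :
    ∃ B : ℝ, 0 ≤ B ∧ ∀ t, g.speed γ t ≤ B := by
  obtain ⟨c, C, hc, hC, h⟩ := g.exists_bounds
  refine ⟨C * K, by positivity, fun t => ?_⟩
  refine (h _ _).2.trans ?_
  exact mul_le_mul_of_nonneg_left (norm_deriv_le_of_lipschitz hγ) hC.le

lemma intervalIntegrable_speed {γ : ℝ → ℝ × ℝ} {K : ℝ≥0} (hγ : LipschitzWith K γ) (a b : ℝ) :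
    IntervalIntegrable (g.speed γ) volume a b := by
  obtain ⟨B, hB, h⟩ := g.exists_speed_le hγ
  refine IntervalIntegrable.mono_fun (f := fun _ => B) intervalIntegrable_const
    (g.measurable_speed hγ.continuous).aestronglyMeasurable ?_
  refine Filter.Eventually.of_forall (fun t => ?_)
  beta_reduce
  rw [Real.norm_of_nonneg (g.speed_nonneg γ t), Real.norm_of_nonneg hB]
  exact h t

lemma length_eq (γ : ℝ → ℝ × ℝ) : g.length γ = ∫ t in (0 : ℝ)..1, g.speed γ t := rfl

/-- A Lipschitz curve on `[0,1]` may be replaced by a globally Lipschitz one which is constant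
before `0` and after `1`. -/
lemma exists_global {p q : ℝ × ℝ} {γ : ℝ → ℝ × ℝ} (h : IsCurve p q γ) :
    ∃ γ' : ℝ → ℝ × ℝ, (∃ K, LipschitzWith K γ') ∧ (∀ t ≤ 0, γ' t = p) ∧ (∀ t, 1 ≤ t → γ' t = q) ∧
      g.length γ' = g.length γ := by
  obtain ⟨⟨K, hK⟩, h0, h1⟩ := h
  refine ⟨fun t => γ (projIcc 0 1 zero_le_one t), ⟨K * 1, ?_⟩, ?_, ?_, ?_⟩
  · exact (lipschitzOnWith_iff_restrict.1 hK).comp (LipschitzWith.projIcc zero_le_one)
  · intro t ht
    simp only [projIcc_of_le_left zero_le_one ht, h0]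
  · intro t ht
    simp only [projIcc_of_right_le zero_le_one ht, h1]
  · rw [length_eq, length_eq]
    apply intervalIntegral.integral_congr_Ioo_of_le zero_le_one
    intro t ht
    have hev : (fun t => γ (projIcc 0 1 zero_le_one t)) =ᶠ[nhds t] γ := by
      filter_upwards [Ioo_mem_nhds ht.1 ht.2] with s hs
      simp only [projIcc_of_mem zero_le_one ⟨hs.1.le, hs.2.le⟩]
    unfold speed
    rw [hev.deriv_eq]
    simp only [projIcc_of_mem zero_le_one ⟨ht.1.le, ht.2.le⟩]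

/-- The set of lengths of the curves from `p` to `q`. -/
def lens (p q : ℝ × ℝ) : Set ℝ := {l | ∃ γ, IsCurve p q γ ∧ l = g.length γ}

lemma dist_eq (p q : ℝ × ℝ) : g.dist p q = sInf (g.lens p q) := rfl

lemma length_nonneg (γ : ℝ → ℝ × ℝ) : 0 ≤ g.length γ :=
  intervalIntegral.integral_nonneg zero_le_one (fun t _ => g.speed_nonneg γ t)

lemma bddBelow_lens (p q : ℝ × ℝ) : BddBelow (g.lens p q) := by
  refine ⟨0, ?_⟩
  rintro l ⟨γ, -, rfl⟩
  exact g.length_nonneg γ

/-- the segment -/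
lemma isCurve_line (p q : ℝ × ℝ) : IsCurve p q (fun t => p + t • (q - p)) := by
  refine ⟨⟨⟨‖q - p‖, _root_.norm_nonneg _⟩, ?_⟩, by simp, by simp⟩
  refine LipschitzWith.lipschitzOnWith ?_
  refine LipschitzWith.of_dist_le_mul (fun s t => ?_)
  rw [dist_add_left, _root_.dist_eq_norm, ← sub_smul, _root_.norm_smul, mul_comm, Real.dist_eq]
  exact le_refl _

lemma nonempty_lens (p q : ℝ × ℝ) : (g.lens p q).Nonempty := ⟨_, _, isCurve_line p q, rfl⟩

lemma dist_nonneg (p q : ℝ × ℝ) : 0 ≤ g.dist p q := by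
  rw [dist_eq]
  apply Real.sInf_nonneg
  rintro l ⟨γ, -, rfl⟩
  exact g.length_nonneg γ

lemma dist_le_length {p q : ℝ × ℝ} {γ : ℝ → ℝ × ℝ} (h : IsCurve p q γ) :
    g.dist p q ≤ g.length γ :=
  csInf_le (g.bddBelow_lens p q) ⟨γ, h, rfl⟩

lemma le_dist {p q : ℝ × ℝ} {a : ℝ} (h : ∀ γ, IsCurve p q γ → a ≤ g.length γ) :
    a ≤ g.dist p q := by
  apply le_csInf (g.nonempty_lens p q)
  rintro l ⟨γ, hγ, rfl⟩
  exact h γ hγ

lemma exists_curve_lt (p q : ℝ × ℝ) {ε : ℝ} (hε : 0 < ε) :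
    ∃ γ : ℝ → ℝ × ℝ, (∃ K, LipschitzWith K γ) ∧ (∀ t ≤ 0, γ t = p) ∧ (∀ t, 1 ≤ t → γ t = q) ∧
      g.length γ < g.dist p q + ε := by
  obtain ⟨l, ⟨γ, hγ, rfl⟩, hl⟩ := exists_lt_of_csInf_lt (g.nonempty_lens p q)
    (show sInf (g.lens p q) < g.dist p q + ε by rw [← dist_eq]; linarith)
  obtain ⟨γ', h1, h2, h3, h4⟩ := g.exists_global hγ
  exact ⟨γ', h1, h2, h3, by rw [h4]; exact hl⟩

/-- the distance between two points of a Lipschitz curve is at most the length of the part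
between them -/
lemma dist_le_integral {γ : ℝ → ℝ × ℝ} {K : ℝ≥0} (hγ : LipschitzWith K γ) {a b : ℝ} (hab : a ≤ b) :
    g.dist (γ a) (γ b) ≤ ∫ t in a..b, g.speed γ t := by
  have hc : IsCurve (γ a) (γ b) (fun t => γ (a + (b - a) * t)) := by
    refine ⟨⟨K * ‖b - a‖₊, ?_⟩, by simp, by simp⟩
    refine LipschitzWith.lipschitzOnWith ?_
    refine hγ.comp ?_
    refine LipschitzWith.of_dist_le_mul (fun s t => ?_)
    rw [dist_add_left, Real.dist_eq, Real.dist_eq, ← mul_sub, abs_mul]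
    simp
  refine (g.dist_le_length hc).trans (le_of_eq ?_)
  have hd : ∀ t, deriv (fun t => γ (a + (b - a) * t)) t = (b - a) • deriv γ (a + (b - a) * t) := by
    intro t
    have h1 := deriv_comp_mul_left (b - a) (fun x => γ (a + x)) t
    rw [deriv_comp_const_add] at h1
    exact h1
  have hs : ∀ t, g.speed (fun t => γ (a + (b - a) * t)) t = (b - a) * g.speed γ (a + (b - a) * t) := by
    intro t
    unfold speed
    rw [hd, g.norm_smul, abs_of_nonneg (by linarith)]
  rw [length_eq]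
  simp_rw [hs]
  rw [intervalIntegral.integral_const_mul]
  have h2 := intervalIntegral.smul_integral_comp_add_mul (g.speed γ) (b - a) a (a := 0) (b := 1)
  rw [smul_eq_mul] at h2
  rw [h2]
  simp

lemma dist_self (p : ℝ × ℝ) : g.dist p p = 0 := by
  apply le_antisymm _ (g.dist_nonneg p p)
  have h := g.dist_le_integral (γ := fun _ => p) (K := 0) (LipschitzWith.const p) (le_refl (0 : ℝ))
  simpa using h

lemma dist_comm_le (p q : ℝ × ℝ) : g.dist p q ≤ g.dist q p := by
  apply le_of_forall_pos_lt_add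
  intro ε hε
  obtain ⟨γ, ⟨K, hK⟩, h0, h1, hl⟩ := g.exists_curve_lt q p hε
  refine lt_of_le_of_lt ?_ hl
  have hc : IsCurve p q (fun t => γ (1 - t)) := by
    refine ⟨⟨K * 1, LipschitzWith.lipschitzOnWith (hK.comp ?_)⟩, ?_, ?_⟩
    · refine LipschitzWith.of_dist_le_mul (fun s t => ?_)
      rw [dist_sub_left]; simp
    · simpa using h1 1 le_rfl
    · simpa using h0 0 le_rfl
  refine (g.dist_le_length hc).trans (le_of_eq ?_)
  rw [length_eq, length_eq]
  have hs : ∀ t, g.speed (fun t => γ (1 - t)) t = g.speed γ (1 - t) := by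
    intro t
    unfold speed
    rw [deriv_comp_const_sub, g.norm_neg]
  simp_rw [hs]
  rw [intervalIntegral.integral_comp_sub_left (fun t => g.speed γ t)]
  simp

lemma dist_comm (p q : ℝ × ℝ) : g.dist p q = g.dist q p :=
  le_antisymm (g.dist_comm_le p q) (g.dist_comm_le q p)

lemma dist_triangle (p q r : ℝ × ℝ) : g.dist p r ≤ g.dist p q + g.dist q r := by
  apply le_of_forall_pos_lt_add
  intro ε hε
  obtain ⟨γ₁, ⟨K₁, hK₁⟩, h0, h1, hl⟩ := g.exists_curve_lt p q (half_pos hε)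
  obtain ⟨γ₂, ⟨K₂, hK₂⟩, h0', h1', hl'⟩ := g.exists_curve_lt q r (half_pos hε)
  -- translate the second curve in time
  set γ : ℝ → ℝ × ℝ := fun t => γ₁ t + (γ₂ (t - 1) - q) with hγ
  have hL : LipschitzWith (K₁ + (K₂ * 1)) γ := by
    refine hK₁.add ?_
    have h2 : LipschitzWith (K₂ * 1) (fun t => γ₂ (t - 1)) := by
      refine hK₂.comp ?_
      refine LipschitzWith.of_dist_le_mul (fun s t => ?_)
      rw [dist_sub_right]; simp
    refine LipschitzWith.of_dist_le_mul (fun s t => ?_)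
    rw [dist_sub_right]
    exact h2.dist_le_mul s t
  have e0 : γ 0 = p := by
    simp only [hγ]
    rw [h0 0 le_rfl, h0' _ (by norm_num)]; simp
  have e2 : γ 2 = r := by
    simp only [hγ]
    rw [h1 2 (by norm_num), h1' _ (by norm_num)]; simp
  have hd := g.dist_le_integral hL (show (0 : ℝ) ≤ 2 by norm_num)
  rw [e0, e2, ← intervalIntegral.integral_add_adjacent_intervals (b := 1)
    (g.intervalIntegrable_speed hL _ _) (g.intervalIntegrable_speed hL _ _)] at hd
  have i1 : ∫ t in (0 : ℝ)..1, g.speed γ t = g.length γ₁ := by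
    rw [length_eq]
    apply intervalIntegral.integral_congr_Ioo_of_le zero_le_one
    intro t ht
    have hev : γ =ᶠ[nhds t] γ₁ := by
      filter_upwards [Iio_mem_nhds ht.2] with s hs
      simp only [hγ]
      rw [h0' _ (by linarith [mem_Iio.1 hs])]; simp
    unfold speed
    rw [hev.deriv_eq, hev.eq_of_nhds]
  have i2 : ∫ t in (1 : ℝ)..2, g.speed γ t = g.length γ₂ := by
    have : ∫ t in (1 : ℝ)..2, g.speed γ t = ∫ t in (1 : ℝ)..2, g.speed γ₂ (t - 1) := by
      apply intervalIntegral.integral_congr_Ioo_of_le (by norm_num)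
      intro t ht
      have hev : γ =ᶠ[nhds t] (fun s => γ₂ (s - 1)) := by
        filter_upwards [Ioi_mem_nhds ht.1] with s hs
        simp only [hγ]
        rw [h1 _ (by linarith [mem_Ioi.1 hs])]; simp
      unfold speed
      rw [hev.deriv_eq, hev.eq_of_nhds, deriv_comp_sub_const]
    rw [this, intervalIntegral.integral_comp_sub_right (fun t => g.speed γ₂ t), length_eq]
    norm_num
  rw [i1, i2] at hd
  linarith

/-- The deck transformations are isometries. -/
lemma dist_deck_le (m n : ℤ) (p q : ℝ × ℝ) : g.dist (deck m n p) (deck m n q) ≤ g.dist p q := by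
  apply le_dist
  intro γ hγ
  obtain ⟨⟨K, hK⟩, h0, h1⟩ := hγ
  have hc : IsCurve (deck m n p) (deck m n q) (fun t => deck m n (γ t)) := by
    refine ⟨⟨K, ?_⟩, by simp only [h0], by simp only [h1]⟩
    intro s hs t ht
    have h2 : edist (deck m n (γ s)) (deck m n (γ t)) = edist (γ s) (γ t) := by
      rw [edist_eq_enorm_sub, edist_eq_enorm_sub, deck_sub, ← ofReal_norm, ← ofReal_norm, norm_dvec]
    rw [h2]
    exact hK hs ht
  refine (g.dist_le_length hc).trans (le_of_eq ?_)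
  rw [length_eq, length_eq]
  congr 1
  ext t
  unfold speed
  have hm : ((-1 : ℝ) ^ m) ≠ 0 := zpow_ne_zero _ (by norm_num)
  let L : (ℝ × ℝ) ≃L[ℝ] (ℝ × ℝ) :=
    (ContinuousLinearEquiv.refl ℝ ℝ).prodCongr (ContinuousLinearEquiv.smulLeft (Units.mk0 _ hm))
  have hL : ∀ v, L v = dvec m v := by
    intro v
    ext
    · simp [L, dvec]
    · simp [L, dvec, Units.smul_def]
  have hd : deriv (fun t => deck m n (γ t)) t = dvec m (deriv γ t) := by
    have e1 : (fun t => deck m n (γ t)) = fun t => (L ∘ γ) t + ((m / 2 : ℝ), (n : ℝ)) := by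
      ext s
      · simp [deck, L]
      · simp [deck, L, Units.smul_def]
    rw [e1, deriv_add_const]
    have e2 : deriv (L ∘ γ) t = L (deriv γ t) := by
      rw [← fderiv_apply_one_eq_deriv, ← fderiv_apply_one_eq_deriv, L.comp_fderiv]
      rfl
    rw [← hL]
    exact e2
  rw [hd, g.norm_deck]

lemma deck_inv_left (m n : ℤ) : ∃ n' : ℤ, ∀ p, deck (-m) n' (deck m n p) = p := deck_inv m n

lemma dist_deck (m n : ℤ) (p q : ℝ × ℝ) : g.dist (deck m n p) (deck m n q) = g.dist p q := by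
  apply le_antisymm (g.dist_deck_le m n p q)
  obtain ⟨n', h⟩ := deck_inv m n
  have h2 := g.dist_deck_le (-m) n' (deck m n p) (deck m n q)
  rwa [h, h] at h2

/-- comparison with the Euclidean (sup) norm -/
lemma norm_le_integral_norm_deriv {γ : ℝ → ℝ × ℝ} {K : ℝ≥0} (hγ : LipschitzWith K γ) {a b : ℝ}
    (hab : a ≤ b) : ‖γ b - γ a‖ ≤ ∫ t in a..b, ‖deriv γ t‖ := by
  have hint : IntervalIntegrable (fun t => ‖deriv γ t‖) volume a b := by
    refine IntervalIntegrable.mono_fun (f := fun _ => (K : ℝ)) intervalIntegrable_const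
      (measurable_deriv γ).norm.aestronglyMeasurable ?_
    refine Filter.Eventually.of_forall (fun t => ?_)
    beta_reduce
    rw [norm_norm, Real.norm_of_nonneg K.coe_nonneg]
    exact norm_deriv_le_of_lipschitz hγ
  have key : ∀ L : (ℝ × ℝ) →L[ℝ] ℝ, (∀ v, |L v| ≤ ‖v‖) →
      |L (γ b - γ a)| ≤ ∫ t in a..b, ‖deriv γ t‖ := by
    intro L hL
    have hLip : LipschitzWith (1 * K) (fun t => L (γ t)) := by
      refine LipschitzWith.comp (f := L) ?_ hγ
      refine LipschitzWith.of_dist_le_mul (fun x y => ?_)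
      rw [Real.dist_eq, ← map_sub, _root_.dist_eq_norm]
      simpa using hL (x - y)
    have hac := (hLip.lipschitzOnWith (s := uIcc a b)).absolutelyContinuousOnInterval
    have h1 := hac.integral_deriv_eq_sub
    rw [map_sub, ← h1]
    refine (intervalIntegral.abs_integral_le_integral_abs hab).trans ?_
    apply intervalIntegral.integral_mono_ae hab hac.intervalIntegrable_deriv.abs hint
    have hdiff : ∀ᵐ t, DifferentiableAt ℝ γ t := hγ.ae_differentiableAt_real
    filter_upwards [hdiff] with t ht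
    have h2 : deriv (fun t => L (γ t)) t = L (deriv γ t) := by
      have := (L.hasFDerivAt.comp_hasDerivAt t ht.hasDerivAt)
      exact this.deriv
    rw [h2]
    exact hL _
  rw [Prod.norm_def]
  apply max_le
  · exact key (ContinuousLinearMap.fst ℝ ℝ ℝ) (fun v => by
      rw [Prod.norm_def]; exact le_max_left _ _)
  · exact key (ContinuousLinearMap.snd ℝ ℝ ℝ) (fun v => by
      rw [Prod.norm_def]; exact le_max_right _ _)

/-- The Riemannian distance is comparable with the sup norm distance. -/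
lemma exists_dist_bounds : ∃ c C : ℝ, 0 < c ∧ 0 < C ∧
    ∀ p q, c * ‖p - q‖ ≤ g.dist p q ∧ g.dist p q ≤ C * ‖p - q‖ := by
  obtain ⟨c, C, hc, hC, h⟩ := g.exists_bounds
  refine ⟨c, C, hc, hC, fun p q => ⟨?_, ?_⟩⟩
  · apply le_of_forall_pos_lt_add
    intro ε hε
    obtain ⟨γ, ⟨K, hK⟩, h0, h1, hl⟩ := g.exists_curve_lt p q hε
    refine lt_of_le_of_lt ?_ hl
    have h2 := norm_le_integral_norm_deriv hK (zero_le_one (α := ℝ))
    rw [h0 0 le_rfl, h1 1 le_rfl, norm_sub_rev] at h2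
    have h3 : c * ∫ t in (0 : ℝ)..1, ‖deriv γ t‖ ≤ g.length γ := by
      rw [length_eq, ← intervalIntegral.integral_const_mul]
      apply intervalIntegral.integral_mono_on zero_le_one _ (g.intervalIntegrable_speed hK _ _)
        (fun t _ => (h _ _).1)
      apply IntervalIntegrable.const_mul
      refine IntervalIntegrable.mono_fun (f := fun _ => (K : ℝ)) intervalIntegrable_const
        (measurable_deriv γ).norm.aestronglyMeasurable ?_
      refine Filter.Eventually.of_forall (fun t => ?_)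
      beta_reduce
      rw [norm_norm, Real.norm_of_nonneg K.coe_nonneg]
      exact norm_deriv_le_of_lipschitz hK
    exact (mul_le_mul_of_nonneg_left h2 hc.le).trans h3
  · refine (g.dist_le_length (isCurve_line p q)).trans ?_
    rw [length_eq]
    have hs : ∀ t, g.speed (fun t => p + t • (q - p)) t ≤ C * ‖p - q‖ := by
      intro t
      unfold speed
      have hd : deriv (fun t : ℝ => p + t • (q - p)) t = q - p := by
        have : HasDerivAt (fun t : ℝ => p + t • (q - p)) ((1 : ℝ) • (q - p)) t :=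
          ((hasDerivAt_id t).smul_const (q - p)).const_add p
        rw [this.deriv, one_smul]
      rw [hd, norm_sub_rev p q]
      exact (h _ _).2
    have h4 : ∫ t in (0 : ℝ)..1, g.speed (fun t => p + t • (q - p)) t ≤
        ∫ t in (0 : ℝ)..1, C * ‖p - q‖ := by
      obtain ⟨⟨K, hK⟩, -, -⟩ := isCurve_line p q
      apply intervalIntegral.integral_mono_on zero_le_one _ intervalIntegrable_const
        (fun t _ => hs t)
      apply g.intervalIntegrable_speed (K := ‖q - p‖₊)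
      refine LipschitzWith.of_dist_le_mul (fun s t => ?_)
      rw [dist_add_left, _root_.dist_eq_norm, ← sub_smul, _root_.norm_smul, mul_comm, Real.dist_eq]
      exact le_refl _
    simpa using h4

/-! ### Continuity, separation -/

lemma eq_of_dist_le_zero {p q : ℝ × ℝ} (h : g.dist p q ≤ 0) : p = q := by
  obtain ⟨c, C, hc, hC, hb⟩ := g.exists_dist_bounds
  have h1 := (hb p q).1
  have h2 : ‖p - q‖ ≤ 0 := by
    by_contra h3
    push Not at h3
    nlinarith [mul_pos hc h3]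
  exact sub_eq_zero.1 (norm_le_zero_iff.1 h2)

lemma dist_pos {p q : ℝ × ℝ} (h : p ≠ q) : 0 < g.dist p q := by
  by_contra h1
  push Not at h1
  exact h (g.eq_of_dist_le_zero h1)

lemma abs_dist_sub_le (p q p' q' : ℝ × ℝ) :
    |g.dist p q - g.dist p' q'| ≤ g.dist p p' + g.dist q q' := by
  have h1 := g.dist_triangle p p' q
  have h2 := g.dist_triangle p' q' q
  have h3 := g.dist_triangle p' p q'
  have h4 := g.dist_triangle p q q'
  rw [g.dist_comm q' q] at h2
  rw [g.dist_comm p' p] at h3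
  rw [abs_le]
  constructor <;> linarith

lemma continuous_dist : Continuous (fun z : (ℝ × ℝ) × (ℝ × ℝ) => g.dist z.1 z.2) := by
  obtain ⟨c, C, hc, hC, hb⟩ := g.exists_dist_bounds
  have hL : LipschitzWith (⟨2 * C, by positivity⟩ : ℝ≥0)
      (fun z : (ℝ × ℝ) × (ℝ × ℝ) => g.dist z.1 z.2) := by
    refine LipschitzWith.of_dist_le_mul (fun z w => ?_)
    rw [Real.dist_eq, _root_.dist_eq_norm]
    refine (g.abs_dist_sub_le _ _ _ _).trans ?_
    have h1 := (hb z.1 w.1).2
    have h2 := (hb z.2 w.2).2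
    have h3 : ‖z.1 - w.1‖ ≤ ‖z - w‖ := by
      rw [Prod.norm_def (x := z - w)]; exact le_max_left _ _
    have h4 : ‖z.2 - w.2‖ ≤ ‖z - w‖ := by
      rw [Prod.norm_def (x := z - w)]; exact le_max_right _ _
    change _ ≤ 2 * C * ‖z - w‖
    nlinarith
  exact hL.continuous

lemma tendsto_dist {ι : Type*} {F : Filter ι} {f h : ι → ℝ × ℝ} {x y : ℝ × ℝ}
    (hf : Filter.Tendsto f F (nhds x)) (hh : Filter.Tendsto h F (nhds y)) :
    Filter.Tendsto (fun n => g.dist (f n) (h n)) F (nhds (g.dist x y)) := by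
  have h1 : Filter.Tendsto (fun n => (f n, h n)) F (nhds (x, y)) := hf.prodMk_nhds hh
  have h2 : Filter.Tendsto (fun z : (ℝ × ℝ) × (ℝ × ℝ) => g.dist z.1 z.2) (nhds (x, y))
    (nhds (g.dist x y)) := g.continuous_dist.tendsto (x, y)
  have h3 := h2.comp h1
  exact h3

/-! ### Existence of shortest paths in the plane -/

/-- `c` is a unit speed shortest path from `p` to `q` in the plane. -/
def IsMin (p q : ℝ × ℝ) (c : ℝ → ℝ × ℝ) : Prop :=
  c 0 = p ∧ c (g.dist p q) = q ∧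
    ∀ s ∈ Icc 0 (g.dist p q), ∀ t ∈ Icc 0 (g.dist p q), g.dist (c s) (c t) = |s - t|

lemma exists_approx (p q : ℝ × ℝ) (hL : 0 < g.dist p q) {ε : ℝ} (hε : 0 < ε) :
    ∃ c : ℝ → ℝ × ℝ, (∀ s ∈ Icc 0 (g.dist p q), ∀ t ∈ Icc 0 (g.dist p q),
      g.dist (c s) (c t) ≤ |s - t| * (1 + ε)) ∧
      (∀ s ∈ Icc 0 (g.dist p q), g.dist p (c s) ≤ s * (1 + ε)) ∧
      (∀ s ∈ Icc 0 (g.dist p q), g.dist (c s) q ≤ (g.dist p q - s) * (1 + ε)) := by
  set L := g.dist p q with hLdef
  obtain ⟨γ, ⟨K, hK⟩, h0, h1, hl⟩ := g.exists_curve_lt p q (mul_pos hL hε)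
  set Λ := g.length γ with hΛ
  have hΛL : L ≤ Λ := by
    have hc : IsCurve p q γ := ⟨⟨K, hK.lipschitzOnWith⟩, h0 0 le_rfl, h1 1 le_rfl⟩
    exact g.dist_le_length hc
  set ℓ : ℝ → ℝ := fun τ => ∫ t in (0 : ℝ)..τ, g.speed γ t with hℓ
  have hint := g.intervalIntegrable_speed hK
  have hcont : Continuous ℓ := intervalIntegral.continuous_primitive hint 0
  have hℓ0 : ℓ 0 = 0 := by simp [hℓ]
  have hℓ1 : ℓ 1 = Λ := rfl
  have hdist : ∀ τ τ', g.dist (γ τ) (γ τ') ≤ |ℓ τ - ℓ τ'| := by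
    have key : ∀ τ τ', τ ≤ τ' → g.dist (γ τ) (γ τ') ≤ |ℓ τ - ℓ τ'| := by
      intro τ τ' h
      have h2 := g.dist_le_integral hK h
      have h3 : ∫ t in τ..τ', g.speed γ t = ℓ τ' - ℓ τ := by
        simp only [hℓ]
        rw [intervalIntegral.integral_interval_sub_left (hint _ _) (hint _ _)]
      rw [h3] at h2
      rw [abs_sub_comm]
      exact h2.trans (le_abs_self _)
    intro τ τ'
    rcases le_total τ τ' with h | h
    · exact key τ τ' h
    · rw [g.dist_comm, abs_sub_comm]; exact key τ' τ h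
  have hex : ∀ s, ∃ τ, s ∈ Icc 0 L → τ ∈ Icc (0 : ℝ) 1 ∧ ℓ τ = s * (Λ / L) := by
    intro s
    by_cases hs : s ∈ Icc 0 L
    · have h2 : s * (Λ / L) ∈ Icc (ℓ 0) (ℓ 1) := by
        rw [hℓ0, hℓ1]
        have hΛ0 : 0 < Λ := by linarith
        refine ⟨by have := hs.1; positivity, ?_⟩
        calc s * (Λ / L) ≤ L * (Λ / L) := mul_le_mul_of_nonneg_right hs.2 (by positivity)
          _ = Λ := by field_simp
      obtain ⟨τ, hτ, h3⟩ := intermediate_value_Icc zero_le_one hcont.continuousOn h2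
      exact ⟨τ, fun _ => ⟨hτ, h3⟩⟩
    · exact ⟨0, fun h => absurd h hs⟩
  choose τ hτ using hex
  have hratio : Λ / L ≤ 1 + ε := by
    rw [div_le_iff₀ hL]; nlinarith
  have hratio0 : 0 ≤ Λ / L := div_nonneg (by linarith) hL.le
  refine ⟨fun s => γ (τ s), ?_, ?_, ?_⟩
  · intro s hs t ht
    refine (hdist _ _).trans ?_
    rw [(hτ s hs).2, (hτ t ht).2, ← sub_mul, abs_mul, abs_of_nonneg hratio0]
    exact mul_le_mul_of_nonneg_left hratio (abs_nonneg _)
  · intro s hs
    have h2 := hdist 0 (τ s)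
    rw [h0 0 le_rfl, (hτ s hs).2, hℓ0, zero_sub, abs_neg, abs_of_nonneg
      (mul_nonneg hs.1 hratio0)] at h2
    exact h2.trans (mul_le_mul_of_nonneg_left hratio hs.1)
  · intro s hs
    have h2 := hdist (τ s) 1
    have h3 : ℓ (τ s) - ℓ 1 = -((L - s) * (Λ / L)) := by
      rw [(hτ s hs).2, hℓ1]; field_simp; ring
    rw [h1 1 le_rfl, h3, abs_neg, abs_of_nonneg
      (mul_nonneg (by linarith [hs.2]) hratio0)] at h2
    exact h2.trans (mul_le_mul_of_nonneg_left hratio (by linarith [hs.2]))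

theorem exists_minimizer (p q : ℝ × ℝ) : ∃ c, g.IsMin p q c := by
  rcases (g.dist_nonneg p q).eq_or_lt with h0 | hL
  · have hpq : p = q := g.eq_of_dist_le_zero (by rw [← h0])
    subst hpq
    refine ⟨fun _ => p, rfl, rfl, ?_⟩
    intro s hs t ht
    rw [← h0] at hs ht
    have hs' : s = 0 := le_antisymm hs.2 hs.1
    have ht' : t = 0 := le_antisymm ht.2 ht.1
    rw [hs', ht', g.dist_self]; simp
  set L := g.dist p q with hLdef
  obtain ⟨c, C, hc, hC, hb⟩ := g.exists_dist_bounds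
  have hε : ∀ n : ℕ, (0 : ℝ) < 1 / (n + 1) := fun n => by positivity
  choose a ha1 ha2 ha3 using fun n => g.exists_approx p q hL (hε n)
  have hε1 : ∀ n : ℕ, (1 : ℝ) / (n + 1) ≤ 1 := by
    intro n
    rw [div_le_one (by positivity)]
    have : (0 : ℝ) ≤ n := by positivity
    linarith
  have hcomp : IsCompact (Metric.closedBall p (2 * L / c)) := isCompact_closedBall _ _
  have hmem : ∀ s ∈ Icc 0 L, ∀ n, a n s ∈ Metric.closedBall p (2 * L / c) := by
    intro s hs n
    rw [Metric.mem_closedBall, _root_.dist_eq_norm, norm_sub_rev, le_div_iff₀ hc, mul_comm]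
    refine ((hb p (a n s)).1).trans ((ha2 n s hs).trans ?_)
    have := hε1 n
    have := hε n
    nlinarith [hs.1, hs.2]
  have hlim : ∀ s, ∃ x, s ∈ Icc 0 L →
      Filter.Tendsto (fun n => a n s) (Filter.hyperfilter ℕ) (nhds x) := by
    intro s
    by_cases hs : s ∈ Icc 0 L
    · obtain ⟨x, -, hx⟩ := hcomp.ultrafilter_le_nhds
        ((Filter.hyperfilter ℕ).map (fun n => a n s)) (by
          rw [Ultrafilter.coe_map, Filter.le_principal_iff, Filter.mem_map]
          exact Filter.Eventually.of_forall (fun n => hmem s hs n))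
      exact ⟨x, fun _ => hx⟩
    · exact ⟨p, fun h => absurd h hs⟩
  choose x hx using hlim
  have hle : ((Filter.hyperfilter ℕ : Ultrafilter ℕ) : Filter ℕ) ≤ Filter.atTop := by
    rw [← Nat.cofinite_eq_atTop]; exact Filter.hyperfilter_le_cofinite
  have hεlim : Filter.Tendsto (fun n : ℕ => (1 : ℝ) + 1 / (n + 1)) (Filter.hyperfilter ℕ)
      (nhds (1 + 0)) :=
    (tendsto_const_nhds.add tendsto_one_div_add_atTop_nhds_zero_nat).mono_left hle
  rw [add_zero] at hεlim
  have hd : ∀ s ∈ Icc 0 L, ∀ t ∈ Icc 0 L, g.dist (x s) (x t) ≤ |s - t| := by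
    intro s hs t ht
    have h1 : Filter.Tendsto (fun n => g.dist (a n s) (a n t)) (Filter.hyperfilter ℕ)
        (nhds (g.dist (x s) (x t))) := g.tendsto_dist (hx s hs) (hx t ht)
    have h2 : Filter.Tendsto (fun n : ℕ => |s - t| * (1 + 1 / (n + 1))) (Filter.hyperfilter ℕ)
        (nhds (|s - t| * 1)) := hεlim.const_mul _
    rw [mul_one] at h2
    exact le_of_tendsto_of_tendsto' h1 h2 (fun n => ha1 n s hs t ht)
  have hd0 : ∀ s ∈ Icc 0 L, g.dist p (x s) ≤ s := by
    intro s hs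
    have h1 : Filter.Tendsto (fun n => g.dist p (a n s)) (Filter.hyperfilter ℕ)
        (nhds (g.dist p (x s))) := g.tendsto_dist tendsto_const_nhds (hx s hs)
    have h2 : Filter.Tendsto (fun n : ℕ => s * (1 + 1 / (n + 1))) (Filter.hyperfilter ℕ)
        (nhds (s * 1)) := hεlim.const_mul _
    rw [mul_one] at h2
    exact le_of_tendsto_of_tendsto' h1 h2 (fun n => ha2 n s hs)
  have hdL : ∀ s ∈ Icc 0 L, g.dist (x s) q ≤ L - s := by
    intro s hs
    have h1 : Filter.Tendsto (fun n => g.dist (a n s) q) (Filter.hyperfilter ℕ)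
        (nhds (g.dist (x s) q)) := g.tendsto_dist (hx s hs) tendsto_const_nhds
    have h2 : Filter.Tendsto (fun n : ℕ => (L - s) * (1 + 1 / (n + 1))) (Filter.hyperfilter ℕ)
        (nhds ((L - s) * 1)) := hεlim.const_mul _
    rw [mul_one] at h2
    exact le_of_tendsto_of_tendsto' h1 h2 (fun n => ha3 n s hs)
  have hx0 : x 0 = p := (g.eq_of_dist_le_zero (hd0 0 ⟨le_rfl, hL.le⟩)).symm
  have hxL : x L = q := g.eq_of_dist_le_zero (by
    have := hdL L ⟨hL.le, le_rfl⟩
    rwa [sub_self] at this)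
  refine ⟨x, hx0, hxL, ?_⟩
  have key : ∀ s ∈ Icc 0 L, ∀ t ∈ Icc 0 L, s ≤ t → |s - t| ≤ g.dist (x s) (x t) := by
    intro s hs t ht hst
    rw [abs_sub_comm, abs_of_nonneg (by linarith)]
    have h1 := g.dist_triangle p (x s) q
    have h2 := g.dist_triangle (x s) (x t) q
    have h3 := hd0 s hs
    have h4 := hdL t ht
    linarith
  intro s hs t ht
  apply le_antisymm (hd s hs t ht)
  rcases le_total s t with h | h
  · exact key s hs t ht h
  · rw [abs_sub_comm, g.dist_comm]; exact key t ht s hs h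

end RMetric
end KB
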