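import Mathlib
import Pool.Agent.Helper53.KB.Metric

/-!
# The distance of the Klein bottle and its shortest paths
-/

open Real MeasureTheory Set
open scoped ContDiff ENNReal NNReal

namespace KB

/-- the sign `(-1)^m` as an integer -/
def sgn (m : ℤ) : ℤ := if Even m then 1 else -1

lemma zpow_eq_sgn (m : ℤ) : ((-1 : ℝ) ^ m) = (sgn m : ℝ) := by
  unfold sgn
  split_ifs with h
  · rw [h.neg_one_zpow]; norm_num
  · rw [(Int.not_even_iff_odd.1 h).neg_one_zpow]; norm_num

lemma sgn_mul_self (m : ℤ) : sgn m * sgn m = 1 := by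
  unfold sgn; split_ifs <;> norm_num

lemma sgn_ne_zero (m : ℤ) : sgn m ≠ 0 := by
  unfold sgn; split_ifs <;> norm_num

lemma sgn_zero : sgn 0 = 1 := by simp [sgn]

lemma sgn_add (m n : ℤ) : sgn (m + n) = sgn m * sgn n := by
  have h : ((-1 : ℝ) ^ (m + n)) = (-1 : ℝ) ^ m * (-1 : ℝ) ^ n := zpow_add₀ (by norm_num) _ _
  rw [zpow_eq_sgn, zpow_eq_sgn, zpow_eq_sgn] at h
  exact_mod_cast h

lemma deck_eq (m n : ℤ) (p : ℝ × ℝ) : deck m n p = (p.1 + m / 2, sgn m * p.2 + n) := by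
  unfold deck; rw [zpow_eq_sgn]

lemma deck_comp (m n a b : ℤ) (q : ℝ × ℝ) :
    deck m n (deck a b q) = deck (m + a) (sgn m * b + n) q := by
  simp only [deck_eq, sgn_add]
  ext
  · push_cast; ring
  · push_cast; ring

lemma deck_conj (m n a b : ℤ) (q : ℝ × ℝ) :
    deck m n (deck a b q) = deck a b (deck m (sgn a * (sgn m * b + n - b)) q) := by
  rw [deck_comp, deck_comp, add_comm a m]
  congr 1
  have := sgn_mul_self a
  linear_combination (-(sgn m * b + n - b)) * this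

lemma deck_inj {m n : ℤ} {p : ℝ × ℝ} (h : deck m n p = p) : (m, n) = (0, 0) := by
  rw [deck_eq] at h
  have h1 := congrArg Prod.fst h
  have h2 := congrArg Prod.snd h
  simp only at h1 h2
  have hm : (m : ℝ) = 0 := by linarith
  have hm' : m = 0 := by exact_mod_cast hm
  subst hm'
  rw [sgn_zero] at h2
  have hn : (n : ℝ) = 0 := by push_cast at h2; linarith
  have hn' : n = 0 := by exact_mod_cast hn
  rw [hn']

lemma mk_eq_iff {p q : ℝ × ℝ} : Klein.mk p = Klein.mk q ↔ ∃ m n : ℤ, q = deck m n p := by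
  exact Quotient.eq (r := kleinSetoid)

lemma mk_deck (m n : ℤ) (p : ℝ × ℝ) : Klein.mk (deck m n p) = Klein.mk p :=
  (mk_eq_iff.2 ⟨m, n, rfl⟩).symm

lemma exists_mk (P : Klein) : ∃ p, Klein.mk p = P := Quotient.exists_rep P

namespace RMetric

variable (g : RMetric)

/-- different points of an orbit of the deck group have distance at least `s` -/
def Sep (s : ℝ) : Prop := ∀ (p : ℝ × ℝ) (m n : ℤ), (m, n) ≠ (0, 0) → s ≤ g.dist p (deck m n p)

variable {g} in
lemma Sep.eq {s : ℝ} (hs : g.Sep s) {p q : ℝ × ℝ} (h : Klein.mk p = Klein.mk q)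
    (hd : g.dist p q < s) : p = q := by
  obtain ⟨m, n, rfl⟩ := mk_eq_iff.1 h
  by_cases hmn : (m, n) = (0, 0)
  · have h1 : m = 0 := congrArg Prod.fst hmn
    have h2 : n = 0 := congrArg Prod.snd hmn
    rw [h1, h2, deck_zero]
  · exact absurd (hs p m n hmn) (not_le.2 hd)

lemma bddBelow_distK (P Q : Klein) :
    BddBelow {d | ∃ p q, Klein.mk p = P ∧ Klein.mk q = Q ∧ d = g.dist p q} := by
  refine ⟨0, ?_⟩
  rintro d ⟨p, q, -, -, rfl⟩
  exact g.dist_nonneg p q

lemma distK_le (p q : ℝ × ℝ) : g.distK (Klein.mk p) (Klein.mk q) ≤ g.dist p q :=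
  csInf_le (g.bddBelow_distK _ _) ⟨p, q, rfl, rfl, rfl⟩

lemma distK_nonneg (P Q : Klein) : 0 ≤ g.distK P Q := by
  apply Real.sInf_nonneg
  rintro d ⟨p, q, -, -, rfl⟩
  exact g.dist_nonneg p q

lemma le_distK {p q : ℝ × ℝ} {a : ℝ} (h : ∀ q', Klein.mk q' = Klein.mk q → a ≤ g.dist p q') :
    a ≤ g.distK (Klein.mk p) (Klein.mk q) := by
  unfold distK
  refine le_csInf ⟨g.dist p q, p, q, rfl, rfl, rfl⟩ ?_
  rintro d ⟨p', q', hp, hq, rfl⟩
  obtain ⟨m, n, hm⟩ := mk_eq_iff.1 hp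
  rw [← g.dist_deck m n p' q', ← hm]
  apply h
  rw [mk_deck, hq]

lemma finite_le (p q : ℝ × ℝ) (R : ℝ) : {x : ℤ × ℤ | g.dist p (deck x.1 x.2 q) ≤ R}.Finite := by
  obtain ⟨c, C, hc, hC, hb⟩ := g.exists_dist_bounds
  obtain ⟨N, hN⟩ := exists_nat_ge (2 * (R / c) + 2 * |p.1| + 2 * |q.1| + |p.2| + |q.2|)
  refine ((Set.finite_Icc (-(N : ℤ)) N).prod (Set.finite_Icc (-(N : ℤ)) N)).subset ?_
  rintro ⟨m, n⟩ hx
  have h0 : g.dist p (deck m n q) ≤ R := hx
  have h1 : ‖p - deck m n q‖ ≤ R / c := by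
    rw [le_div_iff₀ hc, mul_comm]
    exact ((hb _ _).1).trans h0
  have hR : 0 ≤ R / c := (_root_.norm_nonneg _).trans h1
  rw [Prod.norm_def, deck_eq] at h1
  have h2 : |p.1 - (q.1 + m / 2)| ≤ R / c := (le_max_left _ _).trans h1
  have h3 : |p.2 - (sgn m * q.2 + n)| ≤ R / c := (le_max_right _ _).trans h1
  have h4 : |(sgn m : ℝ) * q.2| = |q.2| := by
    rw [abs_mul]
    have : |(sgn m : ℝ)| = 1 := by
      unfold sgn; split_ifs <;> simp
    rw [this, one_mul]
  rw [abs_le] at h2 h3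
  have h5 := abs_le.1 (le_of_eq h4)
  have a1 := neg_abs_le p.1
  have a2 := le_abs_self p.1
  have a3 := neg_abs_le q.1
  have a4 := le_abs_self q.1
  have a5 := neg_abs_le p.2
  have a6 := le_abs_self p.2
  have a7 := abs_nonneg p.1
  have a8 := abs_nonneg q.1
  have a9 := abs_nonneg p.2
  have a10 := abs_nonneg q.2
  have b1 : (m : ℝ) ≤ N := by linarith
  have b2 : -(N : ℝ) ≤ m := by linarith
  have b3 : (n : ℝ) ≤ N := by linarith
  have b4 : -(N : ℝ) ≤ n := by linarith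
  refine ⟨⟨?_, ?_⟩, ⟨?_, ?_⟩⟩
  · show -(N : ℤ) ≤ m
    exact_mod_cast b2
  · show m ≤ (N : ℤ)
    exact_mod_cast b1
  · show -(N : ℤ) ≤ n
    exact_mod_cast b4
  · show n ≤ (N : ℤ)
    exact_mod_cast b3

/-- the distance in the quotient is attained -/
lemma exists_distK_eq (p q : ℝ × ℝ) :
    ∃ q', Klein.mk q' = Klein.mk q ∧ g.distK (Klein.mk p) (Klein.mk q) = g.dist p q' := by
  have hfin := g.finite_le p q (g.dist p (deck 0 0 q))
  obtain ⟨x, hx, hmin⟩ := Set.exists_min_image _ (fun x : ℤ × ℤ => g.dist p (deck x.1 x.2 q)) hfin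
    ⟨(0, 0), le_refl (g.dist p (deck 0 0 q))⟩
  refine ⟨deck x.1 x.2 q, mk_deck _ _ _, ?_⟩
  apply le_antisymm
  · rw [← mk_deck x.1 x.2 q]; exact g.distK_le _ _
  · apply g.le_distK
    intro q' hq'
    obtain ⟨m, n, rfl⟩ := mk_eq_iff.1 hq'.symm
    by_cases h : g.dist p (deck m n q) ≤ g.dist p (deck 0 0 q)
    · exact hmin (m, n) h
    · push Not at h
      exact (hmin (0, 0) (le_refl (g.dist p (deck 0 0 q)))).trans h.le

/-- close points have the same distance in the plane and in the quotient -/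
lemma distK_eq_of_le {s : ℝ} (hs : g.Sep s) {p q : ℝ × ℝ} (h : g.dist p q ≤ s / 2) :
    g.distK (Klein.mk p) (Klein.mk q) = g.dist p q := by
  apply le_antisymm (g.distK_le p q)
  apply g.le_distK
  intro q' hq'
  by_contra hlt
  push Not at hlt
  have h1 : g.dist q q' < s := by
    have := g.dist_triangle q p q'
    rw [g.dist_comm q p] at this
    linarith
  have h2 := hs.eq hq'.symm h1
  rw [h2] at hlt
  exact lt_irrefl _ hlt

/-- the systole is attained -/
lemma exists_systole : ∃ (p : ℝ × ℝ) (m n : ℤ), (m, n) ≠ (0, 0) ∧ g.Sep (g.dist p (deck m n p)) := by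
  obtain ⟨c, C, hc, hC, hb⟩ := g.exists_dist_bounds
  set Box : Set (ℝ × ℝ) := Icc (0 : ℝ) 1 ×ˢ Icc (0 : ℝ) 1 with hBox
  have hcomp : IsCompact Box := isCompact_Icc.prod isCompact_Icc
  have h0B : ((0, 0) : ℝ × ℝ) ∈ Box := ⟨by simp, by simp⟩
  have hcont : ∀ x : ℤ × ℤ, Continuous (fun p : ℝ × ℝ => g.dist p (deck x.1 x.2 p)) := by
    intro x
    have h1 : Continuous (fun p : ℝ × ℝ => (p, deck x.1 x.2 p)) := by
      refine continuous_id.prodMk ?_
      unfold deck
      fun_prop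
    exact g.continuous_dist.comp h1
  choose P hP hPmin using fun x : ℤ × ℤ =>
    hcomp.exists_isMinOn ⟨_, h0B⟩ (hcont x).continuousOn
  set R := g.dist (0, 0) (deck 1 0 (0, 0)) with hR
  -- a finite set containing all relevant deck transformations
  obtain ⟨N, hN⟩ := exists_nat_ge (2 * (R / c) + 2)
  set S : Set (ℤ × ℤ) := {x | x ≠ (0, 0) ∧ x ∈ Icc (-(N : ℤ)) N ×ˢ Icc (-(N : ℤ)) N} with hS
  have hSfin : S.Finite :=
    ((Set.finite_Icc (-(N : ℤ)) N).prod (Set.finite_Icc (-(N : ℤ)) N)).subset (fun x hx => hx.2)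
  have hR0 : 0 ≤ R / c := div_nonneg (g.dist_nonneg _ _) hc.le
  have hN2 : (2 : ℝ) ≤ N := by linarith
  have hN1 : (1 : ℤ) ≤ N := by
    have : (1 : ℝ) ≤ N := by linarith
    exact_mod_cast this
  have h10 : ((1, 0) : ℤ × ℤ) ∈ S := by
    refine ⟨by simp, ⟨?_, ?_⟩, ?_, ?_⟩ <;> simp <;> omega
  obtain ⟨x₀, hx₀, hmin⟩ := Set.exists_min_image S
    (fun x => g.dist (P x) (deck x.1 x.2 (P x))) hSfin ⟨_, h10⟩
  have hout : ∀ p ∈ Box, ∀ x : ℤ × ℤ, x ≠ (0, 0) → x ∉ S → R < g.dist p (deck x.1 x.2 p) := by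
    rintro p hp ⟨m, n⟩ hx hxS
    by_contra hle
    push Not at hle
    apply hxS
    have h1 : ‖p - deck m n p‖ ≤ R / c := by
      rw [le_div_iff₀ hc, mul_comm]
      exact ((hb _ _).1).trans hle
    rw [Prod.norm_def, deck_eq] at h1
    have h2 : |p.1 - (p.1 + m / 2)| ≤ R / c := (le_max_left _ _).trans h1
    have h3 : |p.2 - (sgn m * p.2 + n)| ≤ R / c := (le_max_right _ _).trans h1
    have h4 : -1 ≤ (sgn m : ℝ) * p.2 ∧ (sgn m : ℝ) * p.2 ≤ 1 := by
      have hp1 := hp.2.1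
      have hp2 := hp.2.2
      unfold sgn
      split_ifs
      · push_cast; constructor <;> linarith
      · push_cast; constructor <;> linarith
    have hp1 := hp.2.1
    have hp2 := hp.2.2
    rw [abs_le] at h2 h3
    have b1 : (m : ℝ) ≤ N := by linarith
    have b2 : -(N : ℝ) ≤ m := by linarith
    have b3 : (n : ℝ) ≤ N := by linarith
    have b4 : -(N : ℝ) ≤ n := by linarith
    refine ⟨hx, ⟨?_, ?_⟩, ⟨?_, ?_⟩⟩
    · show -(N : ℤ) ≤ m
      exact_mod_cast b2
    · show m ≤ (N : ℤ)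
      exact_mod_cast b1
    · show -(N : ℤ) ≤ n
      exact_mod_cast b4
    · show n ≤ (N : ℤ)
      exact_mod_cast b3
  refine ⟨P x₀, x₀.1, x₀.2, hx₀.1, ?_⟩
  have hbox : ∀ p ∈ Box, ∀ x : ℤ × ℤ, x ≠ (0, 0) →
      g.dist (P x₀) (deck x₀.1 x₀.2 (P x₀)) ≤ g.dist p (deck x.1 x.2 p) := by
    intro p hp x hx
    by_cases hxS : x ∈ S
    · exact (hmin x hxS).trans (hPmin x hp)
    · have h1 := hout p hp x hx hxS
      have h2 : g.dist (P x₀) (deck x₀.1 x₀.2 (P x₀)) ≤ R :=
        (hmin _ h10).trans (hPmin (1, 0) h0B)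
      linarith
  intro p m n hmn
  obtain ⟨a, b, q, hq, rfl⟩ := exists_deck_mem p
  rw [deck_conj, g.dist_deck]
  refine hbox q hq (m, _) ?_
  intro h
  have h1 : m = 0 := congrArg Prod.fst h
  have h2 : sgn a * (sgn m * b + n - b) = 0 := congrArg Prod.snd h
  rw [h1, sgn_zero] at h2
  have h3 := (mul_eq_zero.1 h2).resolve_left (sgn_ne_zero a)
  apply hmn
  rw [h1]
  congr 1
  linarith

/-- unique shortest paths up to distance `r` imply that the orbits are `2r`-separated -/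
theorem sep_of_unique {r : ℝ} (h : g.UniqueShortest r) : g.Sep (2 * r) := by
  obtain ⟨x, m, n, hmn, hsep⟩ := g.exists_systole
  set y := deck m n x with hy
  set s := g.dist x y with hs
  have hxy : x ≠ y := by
    intro hxy
    exact hmn (deck_inj (p := x) (by rw [← hy]; exact hxy.symm))
  have hs0 : 0 < s := g.dist_pos hxy
  have hmk : Klein.mk y = Klein.mk x := mk_deck _ _ _
  suffices hge : 2 * r ≤ s by
    intro p m' n' h'
    exact hge.trans (hsep p m' n' h')
  by_contra hlt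
  push Not at hlt
  obtain ⟨c, hc0, hcL, hc⟩ := g.exists_minimizer x y
  rw [← hs] at hcL hc
  have hmem : ∀ t ∈ Icc (-(s / 2)) (s / 2), s / 2 + t ∈ Icc 0 s := by
    intro t ht
    exact ⟨by linarith [ht.1], by linarith [ht.2]⟩
  -- the two halves of the geodesic loop
  have hdK : ∀ a ∈ Icc 0 s, ∀ b ∈ Icc 0 s, |a - b| ≤ s / 2 →
      g.distK (Klein.mk (c a)) (Klein.mk (c b)) = |a - b| := by
    intro a ha b hb hab
    rw [g.distK_eq_of_le hsep (by rw [hc a ha b hb]; exact hab), hc a ha b hb]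
  have hD : g.distK (Klein.mk (c (s / 2))) (Klein.mk x) = s / 2 := by
    have := hdK (s / 2) ⟨by linarith, by linarith⟩ 0 ⟨le_rfl, hs0.le⟩ (by
      rw [sub_zero, abs_of_pos (by linarith)])
    rw [hc0, sub_zero, abs_of_pos (by linarith)] at this
    exact this
  obtain ⟨c₀, -, huniq⟩ := h (Klein.mk (c (s / 2))) (Klein.mk x) (by rw [hD]; linarith)
  have hsh1 : g.IsShortest (Klein.mk (c (s / 2))) (Klein.mk x) (fun t => Klein.mk (c (s / 2 - t))) := by
    refine ⟨by simp, ?_, ?_⟩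
    · rw [hD]; simp only [sub_self]; rw [hc0]
    · rw [hD]
      intro a ha b hb
      rw [hdK (s / 2 - a) ⟨by linarith [ha.2], by linarith [ha.1]⟩ (s / 2 - b)
        ⟨by linarith [hb.2], by linarith [hb.1]⟩ _]
      · rw [show s / 2 - a - (s / 2 - b) = -(a - b) by ring, abs_neg]
      · rw [show s / 2 - a - (s / 2 - b) = -(a - b) by ring, abs_neg, abs_le]
        constructor <;> linarith [ha.1, ha.2, hb.1, hb.2]
  have hsh2 : g.IsShortest (Klein.mk (c (s / 2))) (Klein.mk x) (fun t => Klein.mk (c (s / 2 + t))) := by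
    refine ⟨by simp, ?_, ?_⟩
    · rw [hD]; simp only [add_halves]; rw [hcL, hmk]
    · rw [hD]
      intro a ha b hb
      rw [hdK (s / 2 + a) ⟨by linarith [ha.1], by linarith [ha.2]⟩ (s / 2 + b)
        ⟨by linarith [hb.1], by linarith [hb.2]⟩ _]
      · rw [show s / 2 + a - (s / 2 + b) = a - b by ring]
      · rw [show s / 2 + a - (s / 2 + b) = a - b by ring, abs_le]
        constructor <;> linarith [ha.1, ha.2, hb.1, hb.2]
  have h4 : s / 4 ∈ Icc 0 (g.distK (Klein.mk (c (s / 2))) (Klein.mk x)) := by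
    rw [hD]; constructor <;> linarith
  have e1 := huniq _ hsh1 h4
  have e2 := huniq _ hsh2 h4
  have e3 : Klein.mk (c (s / 2 - s / 4)) = Klein.mk (c (s / 2 + s / 4)) := by
    simpa using e1.trans e2.symm
  have ha : s / 2 - s / 4 ∈ Icc 0 s := ⟨by linarith, by linarith⟩
  have hb : s / 2 + s / 4 ∈ Icc 0 s := ⟨by linarith, by linarith⟩
  have hd := hc _ ha _ hb
  rw [show s / 2 - s / 4 - (s / 2 + s / 4) = -(s / 2) by ring, abs_neg,
    abs_of_pos (by linarith)] at hd
  have e4 := hsep.eq e3 (by rw [hd]; linarith)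
  rw [e4, g.dist_self] at hd
  linarith

/-- Shortest paths of the Klein bottle of length less than half of the separation lift. -/
theorem exists_lift {s : ℝ} (hs : g.Sep s) {P Q : Klein} {c : ℝ → Klein}
    (hc : g.IsShortest P Q c) (hL : g.distK P Q < s / 2) {p : ℝ × ℝ} (hp : Klein.mk p = P) :
    ∃ q c', Klein.mk q = Q ∧ g.dist p q = g.distK P Q ∧ g.IsMin p q c' ∧
      ∀ t ∈ Icc 0 (g.distK P Q), Klein.mk (c' t) = c t := by
  set L := g.distK P Q with hLdef
  obtain ⟨hc0, hcL, hcd⟩ := hc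
  have hL0 : 0 ≤ L := g.distK_nonneg P Q
  have hex : ∀ t, ∃ x, t ∈ Icc 0 L → Klein.mk x = c t ∧ g.dist p x = t := by
    intro t
    by_cases ht : t ∈ Icc 0 L
    · obtain ⟨y, hy⟩ := exists_mk (c t)
      obtain ⟨x, hx, hxd⟩ := g.exists_distK_eq p y
      refine ⟨x, fun _ => ⟨hx.trans hy, ?_⟩⟩
      rw [← hxd, hp, hy, ← hc0, hcd 0 ⟨le_rfl, hL0⟩ t ht, zero_sub, abs_neg, abs_of_nonneg ht.1]
    · exact ⟨p, fun h => absurd h ht⟩
  choose x hx using hex
  have h0 : x 0 = p := by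
    have := (hx 0 ⟨le_rfl, hL0⟩).2
    exact (g.eq_of_dist_le_zero this.le).symm
  have hdx : ∀ a ∈ Icc 0 L, ∀ b ∈ Icc 0 L, a ≤ b → g.dist (x a) (x b) = b - a := by
    intro a ha b hb hab
    obtain ⟨y, hy, hyd⟩ := g.exists_distK_eq (x a) (x b)
    rw [(hx a ha).1, (hx b hb).1, hcd a ha b hb, abs_sub_comm, abs_of_nonneg (by linarith)] at hyd
    have h1 : g.dist p y ≤ b := by
      have := g.dist_triangle p (x a) y
      rw [(hx a ha).2, ← hyd] at this
      linarith
    have h2 : g.dist (x b) y < s := by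
      have := g.dist_triangle (x b) p y
      rw [g.dist_comm (x b) p, (hx b hb).2] at this
      linarith [hb.2]
    have h3 := hs.eq hy.symm h2
    rw [h3]; exact hyd.symm
  have hLd : g.dist p (x L) = L := (hx L ⟨hL0, le_rfl⟩).2
  refine ⟨x L, x, (hx L ⟨hL0, le_rfl⟩).1.trans hcL, hLd, ⟨h0, ?_, ?_⟩, fun t ht => (hx t ht).1⟩
  · rw [hLd]
  · rw [hLd]
    intro a ha b hb
    rcases le_total a b with hab | hab
    · rw [hdx a ha b hb hab, abs_sub_comm, abs_of_nonneg (by linarith)]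
    · rw [g.dist_comm, hdx b hb a ha hab, abs_of_nonneg (by linarith)]

/-- a shortest path of the plane of length at most half of the separation projects to a shortest
path of the Klein bottle -/
lemma isShortest_of_isMin {s : ℝ} (hs : g.Sep s) {p q : ℝ × ℝ} {c : ℝ → ℝ × ℝ}
    (hc : g.IsMin p q c) (hL : g.dist p q ≤ s / 2) :
    g.IsShortest (Klein.mk p) (Klein.mk q) (fun t => Klein.mk (c t)) := by
  obtain ⟨h0, h1, h2⟩ := hc
  have hD := g.distK_eq_of_le hs hL
  refine ⟨by simp only [h0], by simp only [hD, h1], ?_⟩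
  rw [hD]
  intro a ha b hb
  rw [g.distK_eq_of_le hs, h2 a ha b hb]
  rw [h2 a ha b hb, abs_le]
  constructor <;> linarith [ha.1, ha.2, hb.1, hb.2]

/-- A criterion for `UniqueShortest`: separation of the orbits and uniqueness of the shortest paths
in the plane. -/
theorem uniqueShortest_of {r : ℝ} (hs : g.Sep (2 * r))
    (hu : ∀ p q c c', g.dist p q < r → g.IsMin p q c → g.IsMin p q c' →
      EqOn c' c (Icc 0 (g.dist p q))) : g.UniqueShortest r := by
  intro P Q hPQ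
  obtain ⟨p, rfl⟩ := exists_mk P
  obtain ⟨q₀, rfl⟩ := exists_mk Q
  obtain ⟨q, hq, hqd⟩ := g.exists_distK_eq p q₀
  obtain ⟨c, hc⟩ := g.exists_minimizer p q
  have hle : g.dist p q ≤ 2 * r / 2 := by rw [← hqd]; linarith
  refine ⟨fun t => Klein.mk (c t), ?_, ?_⟩
  · rw [← hq]; exact g.isShortest_of_isMin hs hc hle
  · intro c' hc' t ht
    obtain ⟨q', c'', hq', hqd', hmin, hlift⟩ := g.exists_lift hs hc' (by linarith) (rfl : Klein.mk p = _)
    have hqq : q' = q := by
      apply hs.eq (hq'.trans hq.symm)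
      have := g.dist_triangle q' p q
      rw [g.dist_comm q' p] at this
      linarith
    rw [hqq] at hmin
    rw [← hlift t ht]
    have := hu p q c c'' (by rw [← hqd]; exact hPQ) hc hmin (by rw [← hqd]; exact ht)
    simp only [this]

end RMetric
end KB
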