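import Mathlib
import Pool.Agent.Helper53.KB.Quot
import Pool.Agent.Helper63.KB.UnifDef
import Pool.Agent.Helper8.KB.Bavard

/-!
# The lower bound for the embolic functional of the Klein bottle
-/

open Real MeasureTheory Set
open scoped ContDiff ENNReal NNReal

namespace KB

variable {g : RMetric}

lemma Unif.W_L_zpow (U : Unif g) (n : ℤ) (u v : ℝ) :
    U.W (u, v + n * U.L) = deck 0 n (U.W (u, v)) := by
  induction n using Int.induction_on with
  | zero => simp [deck_zero]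
  | succ k ih =>
    have h1 := U.W_L u (v + (k : ℤ) * U.L)
    rw [ih, deck_comp, sgn_zero] at h1
    have e : v + ((k : ℤ) : ℝ) * U.L + U.L = v + (((k : ℤ) + 1 : ℤ) : ℝ) * U.L := by
      push_cast; ring
    rw [e] at h1
    rw [h1]
    congr 1
    ring
  | pred k ih =>
    have h1 := U.W_L u (v + (-(k : ℤ) - 1 : ℤ) * U.L)
    have e : v + ((-(k : ℤ) - 1 : ℤ) : ℝ) * U.L + U.L = v + ((-(k : ℤ) : ℤ) : ℝ) * U.L := by
      push_cast; ring
    rw [e, ih] at h1
    have h2 := congrArg (deck 0 (-1)) h1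
    rw [deck_comp, deck_comp, sgn_zero] at h2
    have h3 : deck (0 + 0) (1 * 1 + -1) (U.W (u, v + (-(k : ℤ) - 1 : ℤ) * U.L))
        = U.W (u, v + (-(k : ℤ) - 1 : ℤ) * U.L) := by
      simpa using deck_zero (U.W (u, v + (-(k : ℤ) - 1 : ℤ) * U.L))
    rw [h3] at h2
    rw [← h2]
    congr 1
    ring

lemma Unif.W_B_zpow (U : Unif g) (m : ℤ) (u v : ℝ) :
    U.W (u + m * U.B, (-1 : ℝ) ^ m * v) = deck m 0 (U.W (u, v)) := by
  induction m using Int.induction_on with
  | zero => simp [deck_zero]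
  | succ k ih =>
    have h1 := U.W_B (u + (k : ℤ) * U.B) ((-1 : ℝ) ^ (k : ℤ) * v)
    rw [ih, deck_comp] at h1
    have e : u + ((k : ℤ) : ℝ) * U.B + U.B = u + (((k : ℤ) + 1 : ℤ) : ℝ) * U.B := by
      push_cast; ring
    have e2 : -((-1 : ℝ) ^ (k : ℤ) * v) = (-1 : ℝ) ^ ((k : ℤ) + 1) * v := by
      rw [zpow_add₀ (by norm_num)]; ring
    rw [e, e2] at h1
    rw [h1]
    congr 1
    ring
  | pred k ih =>
    have h1 := U.W_B (u + (-(k : ℤ) - 1 : ℤ) * U.B) ((-1 : ℝ) ^ (-(k : ℤ) - 1) * v)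
    have e : u + ((-(k : ℤ) - 1 : ℤ) : ℝ) * U.B + U.B = u + ((-(k : ℤ) : ℤ) : ℝ) * U.B := by
      push_cast; ring
    have e2 : -((-1 : ℝ) ^ (-(k : ℤ) - 1) * v) = (-1 : ℝ) ^ (-(k : ℤ)) * v := by
      rw [zpow_sub₀ (by norm_num)]; ring
    rw [e, e2, ih] at h1
    have h2 := congrArg (deck (-1) 0) h1
    rw [deck_comp, deck_comp] at h2
    have h3 : deck (-1 + 1) (sgn (-1) * 0 + 0)
        (U.W (u + (-(k : ℤ) - 1 : ℤ) * U.B, (-1 : ℝ) ^ (-(k : ℤ) - 1) * v))
        = U.W (u + (-(k : ℤ) - 1 : ℤ) * U.B, (-1 : ℝ) ^ (-(k : ℤ) - 1) * v) := by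
      simpa using deck_zero (U.W (u + (-(k : ℤ) - 1 : ℤ) * U.B, (-1 : ℝ) ^ (-(k : ℤ) - 1) * v))
    rw [h3] at h2
    rw [← h2]
    congr 1
    ring

lemma Unif.W_deck (U : Unif g) (m n : ℤ) (u v : ℝ) :
    U.W (u + m * U.B, (-1 : ℝ) ^ m * v + n * U.L) = deck m n (U.W (u, v)) := by
  rw [U.W_L_zpow, U.W_B_zpow, deck_comp, sgn_zero]
  congr 1 <;> ring

/-- The area is larger than the bound given by the separation of the orbits. -/
theorem sys_area (U : Unif g) {s : ℝ} (hs : 0 < s) (h : g.Sep s) :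
    2 * √2 / π * s ^ 2 < g.area := by
  rw [U.area_eq]
  apply Pool.Agent.Helper8.KB.planar_bavard U.hB U.hL hs U.f_smooth U.f_pos U.f_B U.f_L
  intro c hc m n hmn hend
  have hWc : ContDiff ℝ 1 (fun t => U.W (c t)) := U.W_smooth.comp hc
  have hcurve : RMetric.IsCurve (U.W (c 0)) (U.W (c 1)) (fun t => U.W (c t)) := by
    refine ⟨?_, rfl, rfl⟩
    exact (hWc.contDiffOn (s := Icc (0 : ℝ) 1)).exists_lipschitzOnWith (by norm_num)
      (convex_Icc 0 1) isCompact_Icc
  have hlen := g.dist_le_length hcurve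
  have e1 : U.W (c 1) = deck m n (U.W (c 0)) := by
    rw [hend, U.W_deck]
  rw [e1] at hlen
  refine (h _ m n hmn).trans (hlen.trans (le_of_eq ?_))
  rw [RMetric.length_eq]
  apply intervalIntegral.integral_congr
  intro t _
  have hct : HasDerivAt c (deriv c t) t := (hc.differentiable (by norm_num) t).hasDerivAt
  have hWt : HasFDerivAt U.W (fderiv ℝ U.W (c t)) (c t) :=
    (U.W_smooth.differentiable (by norm_num) (c t)).hasFDerivAt
  have hd : deriv (fun t => U.W (c t)) t = fderiv ℝ U.W (c t) (deriv c t) :=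
    (hWt.comp_hasDerivAt t hct).deriv
  simp only [RMetric.speed]
  rw [hd, U.conf]

theorem area_pos (U : Unif g) : 0 < g.area := by
  obtain ⟨p, m, n, hmn, hsep⟩ := g.exists_systole
  have hs : 0 < g.dist p (deck m n p) := by
    apply g.dist_pos
    intro h
    exact hmn (deck_inj h.symm)
  have h1 := sys_area U hs hsep
  have h2 : 0 < 2 * √2 / π * g.dist p (deck m n p) ^ 2 := by positivity
  linarith

/-- The embolic functional is larger than `8 √2 / π`. -/
theorem embolic_gt (U : Unif g) : ENNReal.ofReal (8 * √2 / π) < g.embolic := by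
  obtain ⟨p, m, n, hmn, hsep⟩ := g.exists_systole
  set s := g.dist p (deck m n p) with hs_def
  have hs : 0 < s := by
    apply g.dist_pos
    intro h
    exact hmn (deck_inj h.symm)
  have h1 := sys_area U hs hsep
  have hA := area_pos U
  have hinj : g.injRad ≤ ENNReal.ofReal (s / 2) := by
    apply sSup_le
    rintro ρ ⟨r, hr, hu, rfl⟩
    apply ENNReal.ofReal_le_ofReal
    have h2 := g.sep_of_unique hu p m n hmn
    rw [← hs_def] at h2
    linarith
  have h3 : ENNReal.ofReal g.area / ENNReal.ofReal (s / 2) ^ 2 ≤ g.embolic := by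
    unfold RMetric.embolic
    exact ENNReal.div_le_div_left (pow_le_pow_left' hinj 2) _
  refine lt_of_lt_of_le ?_ h3
  rw [← ENNReal.ofReal_pow (by positivity), ← ENNReal.ofReal_div_of_pos (by positivity)]
  rw [ENNReal.ofReal_lt_ofReal_iff (by positivity)]
  rw [lt_div_iff₀ (by positivity)]
  calc 8 * √2 / π * (s / 2) ^ 2 = 2 * √2 / π * s ^ 2 := by ring
    _ < g.area := h1

/-- The embolic constant, from conformal parametrisations and good metrics. -/
theorem embolic_iInf (hU : ∀ g : RMetric, Nonempty (Unif g))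
    (hg : ∀ ε > (0 : ℝ), ∃ g : RMetric, g.embolic ≤ ENNReal.ofReal (8 * √2 / π + ε)) :
    (⨅ g : RMetric, g.embolic) = ENNReal.ofReal (8 * √2 / π) ∧
      ∀ g : RMetric, ENNReal.ofReal (8 * √2 / π) < g.embolic := by
  have h1 : ∀ g : RMetric, ENNReal.ofReal (8 * √2 / π) < g.embolic := fun g => by
    obtain ⟨U⟩ := hU g
    exact embolic_gt U
  refine ⟨le_antisymm ?_ (le_iInf fun g => (h1 g).le), h1⟩
  apply ENNReal.le_of_forall_pos_le_add
  intro ε hε _
  obtain ⟨g, hg'⟩ := hg ε hε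
  refine (iInf_le _ g).trans (hg'.trans ?_)
  rw [ENNReal.ofReal_add (by positivity) ε.coe_nonneg]
  simp

end KB
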